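import Pool.Agent.PalN.Targets
import Pool.Agent.PalF.BoxTools

/-!
# PALF-BMP: functions given in the flow box are smooth on the manifold
-/

set_option autoImplicit false

open scoped Manifold ContDiff Topology
open MeasureTheory Set Filter Bundle Asymptotics Metric Pool.Agent.Palis Pool.Agent.PalF

namespace Pool.Agent.PalN

variable {n : ℕ}

theorem bmp1 : T_BMP := by
  intro n E _ _ _ M _ _ _ _ _ _ μ X Φ h f hB hf hs
  have hpos := hB.pos
  have hK : IsCompact (Icc (-(h / 4)) (h / 4) ×ˢ closedBall (0 : (Pal.E n)) (h / 4)) :=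
    isCompact_Icc.prod (isCompact_closedBall _ _)
  refine BoxT_.push_contMDiff hB.smooth hf hK ?_ ?_ (η := bmp Φ f) ?_ ?_
  · rw [hB.target]
    rintro ⟨t, y⟩ ⟨ht, hy⟩
    refine ⟨⟨by have := ht.1; simp only at this; simp only; linarith,
      by have := ht.2; simp only at this; simp only; linarith⟩, ?_⟩
    rw [mem_closedBall] at hy
    rw [mem_ball]
    simp only at hy ⊢
    linarith
  · intro z hz
    by_contra hne
    apply hz
    obtain ⟨h1, h2⟩ := hs z hne
    exact ⟨abs_le.1 h1, by rw [mem_closedBall, dist_zero_right]; exact h2⟩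
  · intro x hx
    unfold bmp
    rw [if_pos hx]
  · intro x hx
    unfold bmp
    rw [if_neg hx]

end Pool.Agent.PalN
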