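import Pool.Agent.PalN.Targets
import Pool.Agent.Pal.LIN

/-!
# PALF, job BX3: straightening of the area in a flow box
-/

set_option autoImplicit false

open scoped Manifold ContDiff Topology
open MeasureTheory Set Filter Bundle Asymptotics Metric Pool.Agent.Palis Pool.Agent.PalF

namespace Pool.Agent.PalN

variable {n : ℕ}

namespace BX3_

/-- Parametric integrals. -/
lemma param (n : ℕ) : ∀ {E G : Type} [NormedAddCommGroup E] [NormedSpace ℝ E]
    [FiniteDimensional ℝ E] [NormedAddCommGroup G] [NormedSpace ℝ G] [CompleteSpace G]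
    (F : E × ℝ → G), ContDiff ℝ n F → ContDiff ℝ n (fun x => ∫ s in (0 : ℝ)..1, F (x, s)) := by
  induction n with
  | zero =>
    intro E G _ _ _ _ _ _ F hF
    rw [Nat.cast_zero, contDiff_zero] at hF ⊢
    exact intervalIntegral.continuous_parametric_intervalIntegral_of_continuous'
      (f := fun x s => F (x, s)) hF 0 1
  | succ n ih =>
    intro E G _ _ _ _ _ _ F hF
    have : ProperSpace E := FiniteDimensional.proper ℝ E
    set F' : E × ℝ → E →L[ℝ] G := fun p => (fderiv ℝ F p).comp (ContinuousLinearMap.inl ℝ E ℝ)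
      with hF'
    have hF'c : ContDiff ℝ n F' := by
      have h1 : ContDiff ℝ n (fderiv ℝ F) := hF.fderiv_right (by norm_cast)
      exact h1.clm_comp contDiff_const
    have hc : Continuous F' := hF'c.continuous
    have hFd : Differentiable ℝ F := hF.differentiable (by simp)
    have key : ∀ x₀, HasFDerivAt (fun x => ∫ s in (0 : ℝ)..1, F (x, s))
        (∫ s in (0 : ℝ)..1, F' (x₀, s)) x₀ := by
      intro x₀
      obtain ⟨C, hC⟩ := ((isCompact_closedBall x₀ 1).prod
        (isCompact_Icc (a := (0 : ℝ)) (b := 1))).exists_bound_of_continuousOn (f := F')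
        hc.continuousOn
      refine intervalIntegral.hasFDerivAt_integral_of_dominated_of_fderiv_le
        (F := fun x s => F (x, s)) (F' := fun x s => F' (x, s)) (s := Metric.ball x₀ 1)
        (bound := fun _ => C) (Metric.ball_mem_nhds x₀ one_pos) ?_ ?_ ?_ ?_ ?_ ?_
      · refine Eventually.of_forall fun x => ?_
        exact (hF.continuous.comp
          (by fun_prop : Continuous fun s : ℝ => (x, s))).aestronglyMeasurable
      · exact (hF.continuous.comp
          (by fun_prop : Continuous fun s : ℝ => (x₀, s))).intervalIntegrable _ _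
      · exact (hc.comp (by fun_prop : Continuous fun s : ℝ => (x₀, s))).aestronglyMeasurable
      · refine Eventually.of_forall fun t ht x hx => hC (x, t) ⟨?_, ?_⟩
        · exact Metric.ball_subset_closedBall hx
        · rw [uIoc_of_le zero_le_one] at ht
          exact ⟨ht.1.le, ht.2⟩
      · exact continuous_const.intervalIntegrable _ _
      · refine Eventually.of_forall fun t _ x _ => ?_
        have h1 : HasFDerivAt F (fderiv ℝ F (x, t)) (x, t) := (hFd (x, t)).hasFDerivAt
        have h2 : HasFDerivAt (fun y : E => (y, t)) (ContinuousLinearMap.inl ℝ E ℝ) x :=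
          hasFDerivAt_prodMk_left x t
        exact h1.comp x h2
    rw [Nat.cast_succ, contDiff_succ_iff_fderiv]
    refine ⟨fun x => (key x).differentiableAt, by simp, ?_⟩
    have h2 : fderiv ℝ (fun x => ∫ s in (0 : ℝ)..1, F (x, s)) =
        fun x => ∫ s in (0 : ℝ)..1, F' (x, s) := by
      funext x
      exact (key x).fderiv
    rw [h2]
    exact ih F' hF'c

/-- A positive smooth extension. -/
lemma extend {h : ℝ} (hh : 0 < h) {G : (Pal.E n) → ℝ} (hG : ContDiffOn ℝ ∞ G (ball 0 h))
    (hpos : ∀ y ∈ ball (0 : (Pal.E n)) h, 0 < G y) :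
    ∃ ρ : (Pal.E n) → ℝ, ContDiff ℝ ∞ ρ ∧ (∀ y, 0 < ρ y) ∧ ∀ y ∈ ball (0 : (Pal.E n)) (h / 2), ρ y = G y := by
  let χ : ContDiffBump (0 : (Pal.E n)) := ⟨h / 2, 3 * h / 4, by linarith, by linarith⟩
  refine ⟨fun y => χ y * (G y - 1) + 1, ?_, ?_, ?_⟩
  · rw [contDiff_iff_contDiffAt]
    intro y
    by_cases hy : y ∈ ball (0 : (Pal.E n)) h
    · have h1 : ContDiffAt ℝ ∞ G y := hG.contDiffAt (isOpen_ball.mem_nhds hy)
      exact (χ.contDiff.contDiffAt.mul (h1.sub contDiffAt_const)).add contDiffAt_const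
    · have h1 : (fun y => χ y * (G y - 1) + 1) =ᶠ[𝓝 y] fun _ => 1 := by
        have h2 : ∀ᶠ z in 𝓝 y, z ∉ closedBall (0 : (Pal.E n)) (3 * h / 4) := by
          apply isClosed_closedBall.isOpen_compl.mem_nhds
          intro h3
          apply hy
          exact closedBall_subset_ball (by linarith) h3
        filter_upwards [h2] with z hz
        have h3 : χ z = 0 := by
          apply χ.zero_of_le_dist
          rw [mem_closedBall] at hz
          push Not at hz
          exact hz.le
        rw [h3]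
        ring
      exact contDiffAt_const.congr_of_eventuallyEq h1
  · intro y
    simp only
    by_cases hy : y ∈ ball (0 : (Pal.E n)) h
    · have h1 := hpos y hy
      have h2 : 0 ≤ χ y := χ.nonneg
      have h3 : χ y ≤ 1 := χ.le_one
      have h4 : χ y * (G y - 1) + 1 = χ y * G y + (1 - χ y) := by ring
      rw [h4]
      rcases h3.lt_or_eq with h5 | h5
      · have : 0 ≤ χ y * G y := mul_nonneg h2 h1.le
        linarith
      · rw [h5]
        linarith
    · have h3 : χ y = 0 := by
        apply χ.zero_of_le_dist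
        rw [mem_ball] at hy
        push Not at hy
        show 3 * h / 4 ≤ dist y 0
        linarith
      rw [h3]
      norm_num
  · intro y hy
    have h1 : χ y = 1 := by
      apply χ.one_of_mem_closedBall
      exact ball_subset_closedBall hy
    simp only [h1]
    ring

lemma coord_contDiff (i : Fin n) {k : WithTop ℕ∞} : ContDiff ℝ k (fun y : (Pal.E n) => y i) :=
  (contDiff_euclidean.1 contDiff_id) i

/-- The unit vector of the coordinate `i`. -/
noncomputable def ev (i : Fin n) : (Pal.E n) := EuclideanSpace.single i (1 : ℝ)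

lemma ev_apply (i : Fin n) : ev i i = 1 := by simp [ev]

/-- The projection along the coordinate `i`. -/
noncomputable def pr (i : Fin n) (y : (Pal.E n)) : (Pal.E n) := y - y i • ev i

lemma pr_apply (i : Fin n) (y : (Pal.E n)) : pr i y i = 0 := by
  simp [pr, ev_apply]

lemma pr_add (i : Fin n) (y : (Pal.E n)) : pr i y + y i • ev i = y := by
  simp [pr]

lemma pr_line (i : Fin n) (y : (Pal.E n)) (t : ℝ) : pr i (y + t • ev i) = pr i y := by
  have h1 : (y + t • ev i) i = y i + t := by simp [ev_apply]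
  simp only [pr, h1]
  module

lemma pr_contDiff (i : Fin n) {k : WithTop ℕ∞} : ContDiff ℝ k (pr i) :=
  contDiff_id.sub ((coord_contDiff i).smul contDiff_const)

/-- The straightening of a positive density. -/
lemma plane (i : Fin n) {ρ : (Pal.E n) → ℝ} (hρ : ContDiff ℝ ∞ ρ) (hpos : ∀ y, 0 < ρ y) :
    ∃ H : (Pal.E n) → (Pal.E n), ContDiff ℝ ∞ H ∧ Function.Injective H ∧ H 0 = 0 ∧
      ∀ y, (fderiv ℝ H y).det = ρ y := by
  set I : (Pal.E n) → ℝ := fun y => ∫ t in (0 : ℝ)..y i, ρ (pr i y + t • ev i) with hI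
  have hcont : ∀ b : (Pal.E n), Continuous fun t : ℝ => ρ (b + t • ev i) := by
    intro b
    exact hρ.continuous.comp (by fun_prop)
  have hI2 : ∀ y, I y = y i * ∫ s in (0 : ℝ)..1, ρ (pr i y + (y i * s) • ev i) := by
    intro y
    have h := intervalIntegral.mul_integral_comp_mul_left (a := 0) (b := 1)
      (f := fun t => ρ (pr i y + t • ev i)) (y i)
    rw [mul_zero, mul_one] at h
    exact h.symm
  have hIs : ContDiff ℝ ∞ I := by
    have h1 : I = fun y => y i * ∫ s in (0 : ℝ)..1, ρ (pr i y + (y i * s) • ev i) := funext hI2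
    rw [h1]
    apply (coord_contDiff i).mul
    rw [contDiff_infty]
    intro k
    apply param k (fun p : (Pal.E n) × ℝ => ρ (pr i p.1 + (p.1 i * p.2) • ev i))
    have h2 : ContDiff ℝ k ρ := hρ.of_le (by exact_mod_cast le_top)
    apply h2.comp
    exact ((pr_contDiff i).comp contDiff_fst).add
      ((((coord_contDiff i).comp contDiff_fst).mul contDiff_snd).smul contDiff_const)
  set H : (Pal.E n) → (Pal.E n) := fun y => pr i y + I y • ev i with hH
  have hHs : ContDiff ℝ ∞ H := (pr_contDiff i).add (hIs.smul contDiff_const)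
  have hHi : ∀ y, H y i = I y := by
    intro y
    show pr i y i + I y * ev i i = I y
    rw [pr_apply, ev_apply]
    ring
  refine ⟨H, hHs, ?_, ?_, ?_⟩
  · intro y z hyz
    have h0 : I y = I z := by
      rw [← hHi y, ← hHi z, hyz]
    have h1 : pr i y = pr i z := by
      have h2 : pr i y + I y • ev i = pr i z + I z • ev i := hyz
      rw [h0] at h2
      exact add_right_cancel h2
    -- strict monotonicity of the integral
    have hmono : StrictMono (fun a : ℝ => ∫ t in (0 : ℝ)..a, ρ (pr i y + t • ev i)) := by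
      apply strictMono_of_deriv_pos
      intro a
      rw [((hcont (pr i y)).deriv_integral _ 0 a)]
      exact hpos _
    have h2 : y i = z i := by
      apply hmono.injective
      show I y = _
      rw [h0, hI]
      simp only [h1]
    rw [← pr_add i y, ← pr_add i z, h1, h2]
  · have h1 : I 0 = 0 := by
      rw [hI]
      simp
    show pr i 0 + I 0 • ev i = 0
    rw [h1]
    simp [pr]
  · intro y
    have hId : HasFDerivAt I (fderiv ℝ I y) y := (hIs.differentiable (by simp) y).hasFDerivAt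
    set c : (Pal.E n) →L[ℝ] ℝ := EuclideanSpace.proj (𝕜 := ℝ) (ι := Fin n) i with hc
    have hprd : HasFDerivAt (pr i) (ContinuousLinearMap.id ℝ (Pal.E n) - c.smulRight (ev i)) y := by
      have h1 : HasFDerivAt (fun y : (Pal.E n) => y i • ev i) (c.smulRight (ev i)) y :=
        c.hasFDerivAt.smul_const (ev i)
      exact (hasFDerivAt_id y).sub h1
    have hHd : HasFDerivAt H ((ContinuousLinearMap.id ℝ (Pal.E n) - c.smulRight (ev i)) +
        (fderiv ℝ I y).smulRight (ev i)) y := hprd.add (hId.smul_const (ev i))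
    have hline : fderiv ℝ I y (ev i) = ρ y := by
      have h1 : HasDerivAt (fun t : ℝ => I (y + t • ev i)) (fderiv ℝ I y (ev i)) 0 := by
        have h2 : HasDerivAt (fun t : ℝ => y + t • ev i) (ev i) 0 := by
          have := ((hasDerivAt_id (0 : ℝ)).smul_const (ev i)).const_add y
          simpa using this
        have h3 : HasFDerivAt I (fderiv ℝ I y) (y + (0 : ℝ) • ev i) := by
          simpa using hId
        exact h3.comp_hasDerivAt (0 : ℝ) h2
      have h4 : (fun t : ℝ => I (y + t • ev i)) =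
          fun t : ℝ => ∫ s in (0 : ℝ)..(y i + t), ρ (pr i y + s • ev i) := by
        funext t
        have h5 : (y + t • ev i) i = y i + t := by simp [ev_apply]
        show (∫ s in (0 : ℝ)..(y + t • ev i) i, ρ (pr i (y + t • ev i) + s • ev i)) = _
        rw [h5, pr_line]
      rw [h4] at h1
      have h2 : HasDerivAt (fun a : ℝ => ∫ s in (0 : ℝ)..a, ρ (pr i y + s • ev i))
          (ρ (pr i y + y i • ev i)) (y i + 0) := by
        rw [add_zero]
        exact intervalIntegral.integral_hasDerivAt_right ((hcont _).intervalIntegrable _ _)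
          ((hcont _).stronglyMeasurableAtFilter _ _) (hcont _).continuousAt
      have h3 := h2.comp_const_add (y i) 0
      rw [pr_add] at h3
      exact h1.unique h3
    rw [hHd.fderiv]
    have h6 : (((ContinuousLinearMap.id ℝ (Pal.E n) - c.smulRight (ev i)) +
        (fderiv ℝ I y).smulRight (ev i) : (Pal.E n) →L[ℝ] (Pal.E n)) :
        (Pal.E n) →ₗ[ℝ] (Pal.E n)) =
        LinearMap.transvection ((fderiv ℝ I y - c : (Pal.E n) →L[ℝ] ℝ) :
          (Pal.E n) →ₗ[ℝ] ℝ) (ev i) := by
      ext1 v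
      simp only [ContinuousLinearMap.toLinearMap_add, ContinuousLinearMap.toLinearMap_sub,
        ContinuousLinearMap.coe_id, LinearMap.add_apply, LinearMap.sub_apply, LinearMap.id_apply,
        ContinuousLinearMap.coe_coe, ContinuousLinearMap.smulRight_apply,
        LinearMap.transvection.apply]
      module
    show LinearMap.det _ = ρ y
    rw [h6, LinearMap.transvection.det]
    show 1 + (fderiv ℝ I y (ev i) - c (ev i)) = ρ y
    rw [hline]
    have h7 : c (ev i) = 1 := ev_apply i
    rw [h7]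
    ring

/-- The product of the identity and a map. -/
def KK (H : (Pal.E n) → (Pal.E n)) (p : ℝ × (Pal.E n)) : ℝ × (Pal.E n) := (p.1, H p.2)

lemma KK_contDiff {H : (Pal.E n) → (Pal.E n)} (hH : ContDiff ℝ ∞ H) : ContDiff ℝ ∞ (KK H) :=
  contDiff_fst.prodMk (hH.comp contDiff_snd)

/-- The derivative of `KK H`. -/
noncomputable def DK (H : (Pal.E n) → (Pal.E n)) (p : ℝ × (Pal.E n)) : (ℝ × (Pal.E n)) →L[ℝ] (ℝ × (Pal.E n)) :=
  (ContinuousLinearMap.id ℝ ℝ).prodMap (fderiv ℝ H p.2)

lemma KK_hasFDerivAt {H : (Pal.E n) → (Pal.E n)} (hH : ContDiff ℝ ∞ H) (p : ℝ × (Pal.E n)) :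
    HasFDerivAt (KK H) (DK H p) p := by
  have h1 : HasFDerivAt H (fderiv ℝ H p.2) p.2 := (hH.differentiable (by simp) p.2).hasFDerivAt
  exact HasFDerivAt.prodMap p (hasFDerivAt_id p.1) h1

lemma DK_det (H : (Pal.E n) → (Pal.E n)) (p : ℝ × (Pal.E n)) : (DK H p).det = (fderiv ℝ H p.2).det := by
  have h1 : (DK H p).det = LinearMap.det ((LinearMap.id : ℝ →ₗ[ℝ] ℝ).prodMap
      (fderiv ℝ H p.2 : (Pal.E n) →ₗ[ℝ] (Pal.E n))) := rfl
  rw [h1, LinearMap.det_prodMap, LinearMap.det_id, one_mul]

lemma KK_embed {H : (Pal.E n) → (Pal.E n)} (hH : ContDiff ℝ ∞ H) (hinj : Function.Injective H)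
    (hdet : ∀ y, (fderiv ℝ H y).det ≠ 0) : Topology.IsOpenEmbedding (KK H) := by
  refine Topology.IsOpenEmbedding.of_continuous_injective_isOpenMap (KK_contDiff hH).continuous
    ?_ ?_
  · intro p q hpq
    have h1 := congrArg Prod.fst hpq
    have h2 := congrArg Prod.snd hpq
    exact Prod.ext h1 (hinj h2)
  · apply isOpenMap_of_hasStrictFDerivAt_equiv (𝕜 := ℝ)
      (f' := fun p => (DK H p).toContinuousLinearEquivOfDetNeZero (by rw [DK_det]; exact hdet _))
    intro p
    have h1 : HasStrictFDerivAt (KK H) (DK H p) p :=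
      ((KK_contDiff hH).contDiffAt (x := p)).hasStrictFDerivAt' (KK_hasFDerivAt hH p) (by simp)
    rw [ContinuousLinearMap.coe_toContinuousLinearEquivOfDetNeZero]
    exact h1

end BX3_

open BX3_ in
theorem bx31 : T_BX3 := by
  intro n E _ _ _ _ _ M _ _ _ _ _ _ _ μ X p Φ h g hn hΦ hg hp hp0
  have hh := hΦ.pos
  have htar := hΦ.target
  -- the density of the plane
  have hmem : ∀ y ∈ ball (0 : (Pal.E n)) h, ((0 : ℝ), y) ∈ Φ.target := by
    intro y hy
    rw [htar]
    exact ⟨⟨by simpa using hh, hh⟩, hy⟩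
  have hG : ContDiffOn ℝ ∞ (fun y : (Pal.E n) => g (0, y)) (ball 0 h) := by
    apply hΦ.gsmooth.comp (contDiff_const.prodMk contDiff_id).contDiffOn
    exact fun y hy => hmem y hy
  obtain ⟨ρ, hρs, hρpos, hρg⟩ := extend hh hG fun y hy => hΦ.gpos _ (hmem y hy)
  obtain ⟨H, hHs, hHinj, hH0, hHdet⟩ := plane ⟨0, hn⟩ hρs hρpos
  have hdet : ∀ y, (fderiv ℝ H y).det ≠ 0 := fun y => by rw [hHdet]; exact (hρpos y).ne'
  have hemb := KK_embed hHs hHinj hdet
  have hK0 : KK H 0 = 0 := by
    show ((0 : ℝ × (Pal.E n)).1, H (0 : ℝ × (Pal.E n)).2) = 0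
    rw [Prod.snd_zero, hH0]
    rfl
  have hKs := KK_contDiff hHs
  set e : OpenPartialHomeomorph (ℝ × (Pal.E n)) (ℝ × (Pal.E n)) := hemb.toOpenPartialHomeomorph (KK H) with he
  have hecoe : ∀ z, e z = KK H z := fun z => rfl
  have hesource : e.source = univ := rfl
  have hetarget : e.target = range (KK H) := by
    rw [he, Topology.IsOpenEmbedding.toOpenPartialHomeomorph_target]
  have hesymm : ∀ a ∈ e.target, ContDiffAt ℝ ∞ e.symm a := by
    intro a ha
    apply e.contDiffAt_symm ha
      (f₀' := (DK H (e.symm a)).toContinuousLinearEquivOfDetNeZero (by rw [DK_det]; exact hdet _))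
    · rw [ContinuousLinearMap.coe_toContinuousLinearEquivOfDetNeZero]
      exact KK_hasFDerivAt hHs _
    · exact hKs.contDiffAt
  -- the small box
  set O : Set (ℝ × (Pal.E n)) := Φ.target ∩ (Prod.snd ⁻¹' ball (0 : (Pal.E n)) (h / 2)) with hO
  have hOopen : IsOpen O := Φ.open_target.inter (isOpen_ball.preimage continuous_snd)
  have h0O : (0 : ℝ × (Pal.E n)) ∈ O := by
    refine ⟨hmem 0 (mem_ball_self hh), ?_⟩
    exact mem_ball_self (by linarith)
  have hKO : IsOpen (KK H '' O) := hemb.isOpenMap O hOopen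
  obtain ⟨h', hh', hball⟩ : ∃ h' : ℝ, 0 < h' ∧ Ioo (-h') h' ×ˢ ball (0 : (Pal.E n)) h' ⊆ KK H '' O := by
    obtain ⟨δ, hδ, hδ2⟩ := Metric.isOpen_iff.1 hKO 0 ⟨0, h0O, hK0⟩
    refine ⟨δ, hδ, ?_⟩
    rintro ⟨t, y⟩ ⟨ht, hy⟩
    apply hδ2
    rw [mem_ball, Prod.dist_eq, max_lt_iff]
    refine ⟨?_, hy⟩
    show dist t 0 < δ
    rw [Real.dist_eq, sub_zero, abs_lt]
    exact ht
  set S : Set (ℝ × (Pal.E n)) := Ioo (-h') h' ×ˢ ball (0 : (Pal.E n)) h' with hS
  have hSo : IsOpen S := isOpen_Ioo.prod isOpen_ball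
  have hSe : S ⊆ e.target := by
    rw [hetarget]
    exact hball.trans (image_subset_range _ _)
  have hSinv : ∀ z ∈ S, e.symm z ∈ O := by
    intro z hz
    obtain ⟨w, hw, rfl⟩ := hball hz
    have : e.symm (KK H w) = w := e.left_inv (by rw [hesource]; trivial)
    rw [this]
    exact hw
  set Φ' : OpenPartialHomeomorph M (ℝ × (Pal.E n)) :=
    (Φ.trans e).trans (OpenPartialHomeomorph.ofSet S hSo) with hΦ'
  have hcoe : ∀ x, Φ' x = KK H (Φ x) := fun x => rfl
  have hcoesymm : ∀ z, Φ'.symm z = Φ.symm (e.symm z) := fun z => rfl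
  have hsource : ∀ x, x ∈ Φ'.source ↔ x ∈ Φ.source ∧ KK H (Φ x) ∈ S := by
    intro x
    rw [hΦ', OpenPartialHomeomorph.trans_source, OpenPartialHomeomorph.trans_source,
      OpenPartialHomeomorph.ofSet_source, hesource]
    simp only [preimage_univ, inter_univ, mem_inter_iff, mem_preimage]
    rfl
  have htarget : Φ'.target = S := by
    rw [hΦ', OpenPartialHomeomorph.trans_target, OpenPartialHomeomorph.trans_target,
      OpenPartialHomeomorph.ofSet_target]
    ext z
    simp only [mem_inter_iff, mem_preimage]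
    constructor
    · exact fun hz => hz.1
    · intro hz
      exact ⟨hz, hSe hz, (hSinv z hz).1⟩
  have hSource2 : ∀ x ∈ Φ'.source, Φ x ∈ O := by
    intro x hx
    obtain ⟨hx1, hx2⟩ := (hsource x).1 hx
    obtain ⟨w, hw, hw2⟩ := hball hx2
    rw [← hemb.injective hw2]
    exact hw
  refine ⟨Φ', h', ?_, ?_, ?_⟩
  · refine ⟨hh', htarget, ?_, ?_, ?_, contDiffOn_const, fun _ _ => one_pos, ?_⟩
    · -- smoothness
      have h1 : ContMDiffOn 𝓘(ℝ, E) 𝓘(ℝ, ℝ × (Pal.E n)) ∞ (KK H ∘ Φ) Φ.source :=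
        hKs.contMDiff.comp_contMDiffOn hΦ.smooth
      exact h1.mono fun x hx => ((hsource x).1 hx).1
    · have h1 : ContMDiffOn 𝓘(ℝ, ℝ × (Pal.E n)) 𝓘(ℝ, ℝ × (Pal.E n)) ∞ e.symm S := by
        rw [contMDiffOn_iff_contDiffOn]
        exact fun z hz => (hesymm z (hSe hz)).contDiffWithinAt
      rw [htarget]
      exact hΦ.smooth_symm.comp h1 fun z hz => (hSinv z hz).1
    · intro x hx
      have hx1 := ((hsource x).1 hx).1
      have h1 : MDifferentiableAt 𝓘(ℝ, E) 𝓘(ℝ, ℝ × (Pal.E n)) Φ x :=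
        ((hΦ.smooth x hx1).contMDiffAt (Φ.open_source.mem_nhds hx1)).mdifferentiableAt (by simp)
      have h2 : HasMFDerivAt 𝓘(ℝ, ℝ × (Pal.E n)) 𝓘(ℝ, ℝ × (Pal.E n)) (KK H) (Φ x) (DK H (Φ x)) :=
        (KK_hasFDerivAt hHs _).hasMFDerivAt
      have h3 : mfderiv 𝓘(ℝ, E) 𝓘(ℝ, ℝ × (Pal.E n)) (KK H ∘ Φ) x =
          (DK H (Φ x)).comp (mfderiv 𝓘(ℝ, E) 𝓘(ℝ, ℝ × (Pal.E n)) Φ x) :=
        (h2.comp x h1.hasMFDerivAt).mfderiv
      show (mfderiv 𝓘(ℝ, E) 𝓘(ℝ, ℝ × (Pal.E n)) (KK H ∘ Φ) x (X x) : ℝ × (Pal.E n)) = (1, 0)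
      rw [h3]
      show DK H (Φ x) (mfderiv 𝓘(ℝ, E) 𝓘(ℝ, ℝ × (Pal.E n)) Φ x (X x)) = (1, 0)
      rw [hΦ.field x hx1]
      show ((1 : ℝ), fderiv ℝ H (Φ x).2 0) = (1, 0)
      rw [map_zero]
    · intro A hA hAm
      have hA1 : A ⊆ Φ.source := fun x hx => ((hsource x).1 (hA hx)).1
      have hAim : MeasurableSet (Φ '' A) := by
        have h1 : Φ '' A = ((↑) : Φ.target → ℝ × (Pal.E n)) '' ((Φ.target.domRestrict Φ.symm) ⁻¹' A) := by
          ext z
          constructor
          · rintro ⟨x, hx, rfl⟩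
            refine ⟨⟨Φ x, Φ.map_source (hA1 hx)⟩, ?_, rfl⟩
            show Φ.symm (Φ x) ∈ A
            rw [Φ.left_inv (hA1 hx)]
            exact hx
          · rintro ⟨⟨z, hz⟩, hz2, rfl⟩
            exact ⟨Φ.symm z, hz2, Φ.right_inv hz⟩
        rw [h1]
        apply Φ.open_target.measurableSet.subtype_image
        exact (Φ.continuousOn_symm.domRestrict).measurable hAm
      have : (volume : Measure (ℝ × (Pal.E n))).IsAddHaarMeasure := by
        rw [Measure.volume_eq_prod]
        infer_instance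
      have himage : Φ' '' A = KK H '' (Φ '' A) := by
        rw [image_image]
        rfl
      rw [himage, hΦ.meas A hA1 hAm]
      have h1 : ∫⁻ z in KK H '' (Φ '' A), ENNReal.ofReal 1 = volume (KK H '' (Φ '' A)) := by
        simp
      rw [h1, ← lintegral_abs_det_fderiv_eq_addHaar_image (f' := DK H) volume hAim
        (fun z _ => (KK_hasFDerivAt hHs z).hasFDerivWithinAt) (hemb.injective.injOn)]
      apply setLIntegral_congr_fun hAim
      rintro z ⟨x, hx, rfl⟩
      have hxO := hSource2 x (hA hx)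
      simp only
      rw [hg _ hxO.1, DK_det, hHdet, abs_of_pos (hρpos _), hρg _ hxO.2]
  · rw [hsource, hp0, hK0]
    refine ⟨hp, ?_⟩
    exact ⟨⟨by simpa using hh', hh'⟩, mem_ball_self hh'⟩
  · rw [hcoe, hp0, hK0]

end Pool.Agent.PalN
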