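import Pool.Agent.PalN.Targets

/-!
# The almost invariant function is smooth (PALF-IVS)
-/

set_option autoImplicit false
set_option linter.unusedSectionVars false

open scoped Manifold ContDiff Topology
open MeasureTheory Set Filter Bundle Asymptotics Metric Pool.Agent.Palis Pool.Agent.PalF

namespace Pool.Agent.PalN

variable {n : ℕ}

namespace IVS_

section

variable {E : Type} [NormedAddCommGroup E] [NormedSpace ℝ E] [FiniteDimensional ℝ E] {M : Type}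
  [TopologicalSpace M] [ChartedSpace E M] [IsManifold 𝓘(ℝ, E) ∞ M] [T2Space M]

/-- a smooth quotient, cut off -/
theorem smooth_quot {N D θ : M → ℝ} (hN : ContMDiff 𝓘(ℝ, E) 𝓘(ℝ, ℝ) ∞ N)
    (hD : ContMDiff 𝓘(ℝ, E) 𝓘(ℝ, ℝ) ∞ D) (hθ : ContMDiff 𝓘(ℝ, E) 𝓘(ℝ, ℝ) ∞ θ)
    (hs : tsupport θ ⊆ {x | 0 < D x}) :
    ContMDiff 𝓘(ℝ, E) 𝓘(ℝ, ℝ) ∞ (fun x => θ x * (N x / D x)) := by
  intro x
  by_cases hx : x ∈ tsupport θ
  · have hDx : D x ≠ 0 := (hs hx).ne'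
    have hq : ContDiffAt ℝ ∞ (fun p : ℝ × ℝ => p.1 / p.2) (N x, D x) :=
      contDiffAt_fst.div contDiffAt_snd hDx
    have hp : ContMDiffAt 𝓘(ℝ, E) 𝓘(ℝ, ℝ × ℝ) ∞ (fun y => (N y, D y)) x :=
      (hN x).prodMk_space (hD x)
    have h1 : ContMDiffAt 𝓘(ℝ, E) 𝓘(ℝ, ℝ) ∞ (fun y => N y / D y) x :=
      ContMDiffAt.comp (g := fun p : ℝ × ℝ => p.1 / p.2) x hq.contMDiffAt hp
    have hm : ContDiffAt ℝ ∞ (fun p : ℝ × ℝ => p.1 * p.2) (θ x, N x / D x) :=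
      contDiffAt_fst.mul contDiffAt_snd
    have hp2 : ContMDiffAt 𝓘(ℝ, E) 𝓘(ℝ, ℝ × ℝ) ∞ (fun y => (θ y, N y / D y)) x :=
      (hθ x).prodMk_space h1
    exact ContMDiffAt.comp (g := fun p : ℝ × ℝ => p.1 * p.2) x hm.contMDiffAt hp2
  · have h0 : ∀ᶠ y in 𝓝 x, θ y = 0 := by
      filter_upwards [(isClosed_tsupport θ).isOpen_compl.mem_nhds hx] with y hy
      exact image_eq_zero_of_notMem_tsupport hy
    have h1 : (fun y => θ y * (N y / D y)) =ᶠ[𝓝 x] fun _ => (0 : ℝ) := by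
      filter_upwards [h0] with y hy
      rw [hy, zero_mul]
    exact (contMDiffAt_const (c := (0 : ℝ))).congr_of_eventuallyEq h1

/-- product rule along a curve -/
theorem lieD_mul {X : ∀ x : M, TangentSpace 𝓘(ℝ, E) x} {I N D : M → ℝ}
    (hI : ContMDiff 𝓘(ℝ, E) 𝓘(ℝ, ℝ) ∞ I) (hN : ContMDiff 𝓘(ℝ, E) 𝓘(ℝ, ℝ) ∞ N)
    (hD : ContMDiff 𝓘(ℝ, E) 𝓘(ℝ, ℝ) ∞ D) {c : ℝ → M} (hc : IsMIntegralCurve c X)
    (h : ∀ᶠ y in 𝓝 (c 0), N y = I y * D y) :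
    lieD N X (c 0) = lieD I X (c 0) * D (c 0) + I (c 0) * lieD D X (c 0) := by
  have h1 := hasDerivAt_comp_curve (hI.of_le (by norm_num)) hc 0
  have h2 := hasDerivAt_comp_curve (hN.of_le (by norm_num)) hc 0
  have h3 := hasDerivAt_comp_curve (hD.of_le (by norm_num)) hc 0
  have hcont : ContinuousAt c 0 := (hc 0).continuousAt
  have h4 : (fun s => N (c s)) =ᶠ[𝓝 0] fun s => I (c s) * D (c s) := hcont.eventually h
  have h5 := (h1.mul h3).congr_of_eventuallyEq h4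
  exact h2.unique h5

end

end IVS_

open IVS_ in
/-- PALF-IVS -/
theorem ivs1 (hB : T_BMP) (hP : T_PIN) : T_IVS := by
  intro n E _ _ _ M _ _ _ _ _ _ μ X γ τ Φ h φ f₀ I₀ b θ hd
  have hf : ContDiff ℝ ∞ (fun z : ℝ × (Pal.E n) => f₀ z * I₀ z.2) :=
    hd.f_smooth.mul (hd.I_smooth.comp contDiff_snd)
  have hb0 := hB n E M μ X Φ h f₀ hd.box.1 hd.f_smooth hd.f_supp
  have hb1 := hB n E M μ X Φ h (fun z => f₀ z * I₀ z.2) hd.box.1 hf
    (fun z hz => hd.f_supp z (left_ne_zero_of_mul hz))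
  obtain ⟨hD, hD'⟩ := hP E M X φ (bmp Φ f₀) τ hd.field hd.flow hb0
  obtain ⟨hN, hN'⟩ := hP E M X φ (bmp Φ (fun z => f₀ z * I₀ z.2)) τ hd.field hd.flow hb1
  have hI : ContMDiff 𝓘(ℝ, E) 𝓘(ℝ, ℝ) ∞ (intI Φ φ τ f₀ I₀ θ) :=
    smooth_quot hN hD hd.θ_smooth hd.θ_supp
  refine ⟨hI, ?_⟩
  obtain ⟨U, hU, hsub, hU1⟩ := eventually_nhdsSet_iff_exists.mp hd.θ_one
  rw [eventually_nhdsSet_iff_exists]
  refine ⟨U, hU, hsub, fun x hx => ?_⟩
  have hpos : ∀ y ∈ U, 0 < avg φ τ (bmp Φ f₀) y := by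
    intro y hy
    refine hd.θ_supp (subset_tsupport θ ?_)
    rw [Function.mem_support, hU1 y hy]
    exact one_ne_zero
  refine ⟨hpos x hx, ?_⟩
  have hcurve := hd.flow.curve x
  have h0 : φ 0 x = x := hd.flow.zero x
  have hev : ∀ᶠ y in 𝓝 (φ 0 x), avg φ τ (bmp Φ (fun z => f₀ z * I₀ z.2)) y =
      intI Φ φ τ f₀ I₀ θ y * avg φ τ (bmp Φ f₀) y := by
    rw [h0]
    filter_upwards [hU.mem_nhds hx] with y hy
    unfold intI
    rw [hU1 y hy, one_mul, div_mul_cancel₀ _ (hpos y hy).ne']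
  have key := lieD_mul (X := X) (c := fun t => φ t x) hI hN hD hcurve hev
  simp only [h0] at key
  have e1 := hN' x
  have e2 := hD' x
  change lieD (avg φ τ (bmp Φ (fun z => f₀ z * I₀ z.2))) X x = _ at e1
  change lieD (avg φ τ (bmp Φ f₀)) X x = _ at e2
  change lieD (avg φ τ (bmp Φ (fun z => f₀ z * I₀ z.2))) X x =
    lieD (intI Φ φ τ f₀ I₀ θ) X x * avg φ τ (bmp Φ f₀) x +
      intI Φ φ τ f₀ I₀ θ x * lieD (avg φ τ (bmp Φ f₀)) X x at key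
  rw [e1, e2] at key
  linear_combination -key

end Pool.Agent.PalN
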