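import Pool.Agent.PalN.OBF

/-!
# The data of the almost invariant function exist
-/

set_option autoImplicit false
set_option linter.unusedSectionVars false

open scoped Manifold ContDiff Topology
open MeasureTheory Set Filter Bundle Asymptotics Metric Pool.Agent.Palis Pool.Agent.PalF

namespace Pool.Agent.PalN

variable {n : ℕ}

theorem ivd1 (hB : T_BMP) (hP : T_PIN) : T_IVD := by
  intro n E _ _ _ M _ _ _ _ _ _ μ X γ τ Φ h φ I₀ b hX hγ hob hφ hI hI0 hb0 hIb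
  obtain ⟨e1, e2, e3, e4⟩ := obf1 n E M μ X γ τ Φ h φ hX hγ hob hφ
  have hh : 0 < h := hob.1.pos
  have hτ := hγ.2.2.1
  let b₁ : ContDiffBump (0 : ℝ) := ⟨h / 8, h / 4, by positivity, by linarith⟩
  let b₂ : ContDiffBump (0 : (Pal.E n)) := ⟨h / 8, h / 4, by positivity, by linarith⟩
  set f₀ : ℝ × (Pal.E n) → ℝ := fun z => b₁ z.1 * b₂ z.2 with hf₀
  have hfs : ContDiff ℝ ∞ f₀ := (b₁.contDiff.comp contDiff_fst).mul (b₂.contDiff.comp contDiff_snd)
  have hfn : ∀ z, 0 ≤ f₀ z := fun z => mul_nonneg b₁.nonneg b₂.nonneg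
  have hsupp : ∀ z, f₀ z ≠ 0 → |z.1| ≤ h / 4 ∧ ‖z.2‖ ≤ h / 4 := by
    intro z hz
    have h1 : z.1 ∈ Function.support b₁ := left_ne_zero_of_mul hz
    have h2 : z.2 ∈ Function.support b₂ := right_ne_zero_of_mul hz
    rw [b₁.support_eq] at h1
    rw [b₂.support_eq] at h2
    rw [mem_ball_zero_iff] at h1 h2
    exact ⟨le_of_lt h1, le_of_lt h2⟩
  have hpos0 : 0 < f₀ 0 := by
    have h1 : (0 : ℝ) < b₁ 0 := b₁.pos_of_mem_ball (mem_ball_self b₁.rOut_pos)
    have h2 : (0 : ℝ) < b₂ 0 := b₂.pos_of_mem_ball (mem_ball_self b₂.rOut_pos)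
    exact mul_pos h1 h2
  have hfp : ∀ᶠ z in 𝓝 (0 : ℝ × (Pal.E n)), 0 < f₀ z :=
    hfs.continuous.continuousAt.eventually (lt_mem_nhds hpos0)
  have hbs := hB n E M μ X Φ h f₀ hob.1 hfs hsupp
  obtain ⟨hav, -⟩ := hP E M X φ (bmp Φ f₀) τ hX hφ hbs
  have havc : Continuous (avg φ τ (bmp Φ f₀)) := hav.continuous
  have hbn : ∀ x, 0 ≤ bmp Φ f₀ x := by
    intro x
    unfold bmp
    split_ifs
    · exact hfn _
    · exact le_rfl
  have hpos : ∀ q ∈ range γ, 0 < avg φ τ (bmp Φ f₀) q := by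
    rintro _ ⟨σ, rfl⟩
    have hc : Continuous fun s => bmp Φ f₀ (φ s (γ σ)) :=
      hbs.continuous.comp (hφ.curve (γ σ)).continuous
    refine intervalIntegral.integral_pos hτ hc.continuousOn (fun s _ => hbn _) ?_
    refine ⟨-σ + ((-⌊-σ / τ⌋ : ℤ) : ℝ) * τ, ⟨?_, ?_⟩, ?_⟩
    · have := Int.floor_le (-σ / τ)
      rw [le_div_iff₀ hτ] at this
      push_cast
      linarith
    · have := (Int.lt_floor_add_one (-σ / τ)).le
      rw [div_le_iff₀ hτ] at this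
      push_cast
      linarith
    · have : φ (-σ + ((-⌊-σ / τ⌋ : ℤ) : ℝ) * τ) (γ σ) = γ 0 := by
        rw [e1, show -σ + ((-⌊-σ / τ⌋ : ℤ) : ℝ) * τ + σ = 0 + ((-⌊-σ / τ⌋ : ℤ) : ℝ) * τ by ring,
          ORB_.per_intz e2]
      rw [this]
      unfold bmp
      rw [if_pos hob.2.1, hob.2.2.1]
      exact hpos0
  have hcomp : IsCompact (range γ) := ORB_.range_compact hτ hγ.1.continuous e2
  obtain ⟨q, hq, hmin⟩ := hcomp.exists_isMinOn (range_nonempty γ) havc.continuousOn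
  set m := avg φ τ (bmp Φ f₀) q with hm
  have hm0 : 0 < m := hpos q hq
  set t : Set M := {x | m / 2 ≤ avg φ τ (bmp Φ f₀) x} with ht
  have htc : IsClosed t := isClosed_le continuous_const havc
  have hst : range γ ⊆ interior t := by
    intro x hx
    refine mem_interior.mpr ⟨{x | m / 2 < avg φ τ (bmp Φ f₀) x},
      fun y (hy : m / 2 < _) => le_of_lt hy, isOpen_lt continuous_const havc, ?_⟩
    have : m ≤ avg φ τ (bmp Φ f₀) x := hmin hx
    show m / 2 < _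
    linarith
  obtain ⟨θ, hθ1, hθ0, -⟩ := exists_contMDiffMap_one_nhds_of_subset_interior (n := ⊤)
    𝓘(ℝ, E) hcomp.isClosed hst
  refine ⟨f₀, θ, hX, hγ, hob, hφ, hfs, hfn, hsupp, hfp, hI, hI0, hb0, hIb, θ.contMDiff, hθ1, ?_⟩
  have h1 : tsupport θ ⊆ t := by
    apply closure_minimal _ htc
    intro x hx
    by_contra hxt
    exact hx (hθ0 x hxt)
  intro x hx
  have h2 : m / 2 ≤ avg φ τ (bmp Φ f₀) x := h1 hx
  show 0 < avg φ τ (bmp Φ f₀) x
  linarith

end Pool.Agent.PalN
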