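import Pool.Agent.PalN.BX1
import Pool.Agent.PalN.BX2
import Pool.Agent.PalN.BX3
import Pool.Agent.PalN.OBX
import Pool.Agent.PalN.PM2
import Pool.Agent.PalN.OSC
import Pool.Agent.PalN.IVD
import Pool.Agent.PalN.IVQ
import Pool.Agent.PalN.IVA
import Pool.Agent.PalN.BMP

/-!
# Flow boxes in dimension n + 1: everything
-/
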