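import Pool.Agent.PalN.Targets

/-!
# PALF-BX1: a flow box with a smooth density
-/

set_option autoImplicit false
set_option linter.unusedSectionVars false

open scoped Manifold ContDiff Topology
open MeasureTheory Set Filter Bundle Metric Pool.Agent.Palis Pool.Agent.PalF

namespace Pool.Agent.PalN

variable {n : ℕ}

namespace BX1_

section Lin

variable {E : Type} [NormedAddCommGroup E] [NormedSpace ℝ E] [FiniteDimensional ℝ E]

lemma exists_equiv (h : Module.finrank ℝ E = n + 1) {v : E} (hv : v ≠ 0) :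
    ∃ ℓ : (ℝ × (Pal.E n)) ≃L[ℝ] E, ℓ (1, 0) = v := by
  have h2 : Module.finrank ℝ (ℝ × (Pal.E n)) = Module.finrank ℝ E := by
    rw [h, Module.finrank_prod]
    simp [Pal.E, Nat.add_comm]
  let L0 : (ℝ × (Pal.E n)) ≃L[ℝ] E := ContinuousLinearEquiv.ofFinrankEq h2
  have h3 : L0 (1, 0) ≠ 0 := by
    intro h0
    have h4 := (map_eq_zero_iff L0 L0.injective).1 h0
    have h5 := congrArg Prod.fst h4
    simp at h5
  obtain ⟨A, hA⟩ := SeparatingDual.exists_continuousLinearEquiv_apply_eq (R := ℝ) h3 hv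
  exact ⟨L0.trans A, by simpa using hA⟩

instance volHaar : (volume : Measure (ℝ × (Pal.E n))).IsAddHaarMeasure :=
  Measure.prod.instIsAddHaarMeasure (volume : Measure ℝ) (volume : Measure (Pal.E n))

lemma exists_const [MeasurableSpace E] [BorelSpace E] (ℓ : (ℝ × (Pal.E n)) ≃L[ℝ] E) :
    ∃ c : ℝ, 0 < c ∧ ∀ (S : Set E) (f : E → ENNReal),
      ∫⁻ y in S, f y ∂(Measure.addHaar : Measure E) =
        ENNReal.ofReal c * ∫⁻ z in ℓ.symm '' S, f (ℓ z) := by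
  set ν : Measure (ℝ × (Pal.E n)) := Measure.map ℓ.symm (Measure.addHaar : Measure E) with hν
  have : ν.IsAddHaarMeasure := ContinuousLinearEquiv.isAddHaarMeasure_map ℓ.symm _
  obtain ⟨a, h2, h1⟩ : ∃ a : NNReal, 0 < a ∧ ν = a • (volume : Measure (ℝ × (Pal.E n))) :=
    ⟨_, Measure.addHaarScalarFactor_pos_of_isAddHaarMeasure ν (volume : Measure (ℝ × (Pal.E n))),
      Measure.isAddLeftInvariant_eq_smul _ _⟩
  refine ⟨a, by exact_mod_cast h2, fun S f => ?_⟩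
  have hm : MeasurableEmbedding ℓ.symm := ℓ.symm.toHomeomorph.measurableEmbedding
  have h3 : ∫⁻ z in ℓ.symm '' S, f (ℓ z) ∂ν =
      ∫⁻ y in S, f y ∂(Measure.addHaar : Measure E) := by
    rw [hν, hm.restrict_map, hm.lintegral_map, preimage_image_eq _ ℓ.symm.injective]
    simp
  rw [← h3, h1, Measure.restrict_smul, lintegral_smul_measure]
  rw [ENNReal.ofReal_coe_nnreal]
  rfl

lemma contDiff_det {F : Type} [NormedAddCommGroup F] [NormedSpace ℝ F] [FiniteDimensional ℝ F] :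
    ContDiff ℝ ∞ (fun A : F →L[ℝ] F => A.det) := by
  classical
  let b := Module.finBasis ℝ F
  have h1 : (fun A : F →L[ℝ] F => A.det) = fun A : F →L[ℝ] F =>
      ∑ σ : Equiv.Perm (Fin (Module.finrank ℝ F)), Equiv.Perm.sign σ •
        ∏ i, (b.coord (σ i)).toContinuousLinearMap (A (b i)) := by
    funext A
    rw [ContinuousLinearMap.det, ← LinearMap.det_toMatrix b, Matrix.det_apply]
    simp only [LinearMap.toMatrix_apply]
    rfl
  rw [h1]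
  refine ContDiff.sum fun σ _ => ?_
  have h2 : ContDiff ℝ ∞ (fun A : F →L[ℝ] F =>
      ∏ i, (b.coord (σ i)).toContinuousLinearMap (A (b i))) := by
    refine contDiff_prod fun i _ => ?_
    exact ((b.coord (σ i)).toContinuousLinearMap.contDiff).comp (contDiff_id.clm_apply contDiff_const)
  have h3 : ∀ r : ℝ, Equiv.Perm.sign σ • r = ((Equiv.Perm.sign σ : ℤ) : ℝ) * r := by
    intro r
    rw [Units.smul_def, zsmul_eq_mul]
  simp only [h3]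
  exact contDiff_const.mul h2

/-- The inverse function theorem with a restricted domain. -/
lemma ift {F : Type} [NormedAddCommGroup F] [NormedSpace ℝ F] [FiniteDimensional ℝ F]
    {G : F → F} {O : Set F} (hO : IsOpen O) (h0 : (0 : F) ∈ O) (hG : ContDiffOn ℝ ∞ G O)
    (hd : HasFDerivAt G (ContinuousLinearMap.id ℝ F) 0) :
    ∃ R : OpenPartialHomeomorph F F, (0 : F) ∈ R.source ∧ R.source ⊆ O ∧ (∀ z, R z = G z) ∧
      (∀ z ∈ R.source, 0 < (fderiv ℝ G z).det) ∧ ContDiffOn ℝ ∞ R.symm R.target := by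
  have hG0 : ContDiffAt ℝ ∞ G 0 := hG.contDiffAt (hO.mem_nhds h0)
  have hd' : HasFDerivAt G ((ContinuousLinearEquiv.refl ℝ F : F ≃L[ℝ] F) : F →L[ℝ] F) 0 := hd
  let R0 := hG0.toOpenPartialHomeomorph G hd' (by simp)
  have hR0 : (0 : F) ∈ R0.source := hG0.mem_toOpenPartialHomeomorph_source hd' (by simp)
  have hc : ContinuousOn (fun z => (fderiv ℝ G z).det) O :=
    ContinuousLinearMap.continuous_det.comp_continuousOn
      (hG.continuousOn_fderiv_of_isOpen hO (by simp))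
  set O2 : Set F := O ∩ (fun z => (fderiv ℝ G z).det) ⁻¹' Ioi 0 with hO2
  have hO2o : IsOpen O2 := hc.isOpen_inter_preimage hO isOpen_Ioi
  have h02 : (0 : F) ∈ O2 := by
    refine ⟨h0, ?_⟩
    show 0 < (fderiv ℝ G 0).det
    rw [hd.fderiv]
    simp [ContinuousLinearMap.det]
  refine ⟨R0.restrOpen O2 hO2o, ⟨hR0, h02⟩, ?_, fun z => rfl, ?_, ?_⟩
  · intro z hz
    exact hz.2.1
  · intro z hz
    exact hz.2.2
  · intro a ha
    have h1 := (R0.restrOpen O2 hO2o).map_target ha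
    set b := (R0.restrOpen O2 hO2o).symm a with hb
    have h2 : b ∈ O := h1.2.1
    have h3 : 0 < (fderiv ℝ G b).det := h1.2.2
    have h4 : ContDiffAt ℝ ∞ G b := hG.contDiffAt (hO.mem_nhds h2)
    apply ContDiffAt.contDiffWithinAt
    refine (R0.restrOpen O2 hO2o).contDiffAt_symm
      (f₀' := ContinuousLinearMap.toContinuousLinearEquivOfDetNeZero (fderiv ℝ G b) h3.ne') ha ?_ h4
    have h5 : HasFDerivAt G (fderiv ℝ G b) b := (h4.differentiableAt (by simp)).hasFDerivAt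
    exact h5

end Lin

lemma measurableSet_inter {α β : Type} [TopologicalSpace α] [MeasurableSpace α]
    [OpensMeasurableSpace α] [TopologicalSpace β] [MeasurableSpace β] [BorelSpace β]
    {f : α → β} {s : Set α} {A : Set β} (hs : IsOpen s) (hf : ContinuousOn f s)
    (hA : MeasurableSet A) : MeasurableSet (s ∩ f ⁻¹' A) := by
  have h1 : MeasurableSet ((fun x : s => f x) ⁻¹' A) :=
    (continuousOn_iff_continuous_domRestrict.1 hf).measurable hA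
  have h2 := hs.measurableSet.subtype_image h1
  have h3 : ((↑) : s → α) '' ((fun x : s => f x) ⁻¹' A) = s ∩ f ⁻¹' A := by
    ext x
    simp [and_comm]
  rwa [h3] at h2

section Main

variable {E : Type} [NormedAddCommGroup E] [NormedSpace ℝ E] [FiniteDimensional ℝ E]
  {M : Type} [TopologicalSpace M] [ChartedSpace E M] [IsManifold 𝓘(ℝ, E) ∞ M]

/-- the chart at `p` followed by a linear isomorphism -/
noncomputable def K (p : M) (ℓ : (ℝ × (Pal.E n)) ≃L[ℝ] E) : OpenPartialHomeomorph M (ℝ × (Pal.E n)) :=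
  (chartAt E p).transHomeomorph ℓ.symm.toHomeomorph

lemma K_source (p : M) (ℓ : (ℝ × (Pal.E n)) ≃L[ℝ] E) : (K p ℓ).source = (chartAt E p).source := rfl

lemma K_target (p : M) (ℓ : (ℝ × (Pal.E n)) ≃L[ℝ] E) :
    (K p ℓ).target = ℓ ⁻¹' (chartAt E p).target := rfl

lemma K_apply (p : M) (ℓ : (ℝ × (Pal.E n)) ≃L[ℝ] E) (x : M) : K p ℓ x = ℓ.symm (chartAt E p x) := rfl

lemma K_symm_apply (p : M) (ℓ : (ℝ × (Pal.E n)) ≃L[ℝ] E) (z : ℝ × (Pal.E n)) :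
    (K p ℓ).symm z = (chartAt E p).symm (ℓ z) := rfl

lemma K_smooth (p : M) (ℓ : (ℝ × (Pal.E n)) ≃L[ℝ] E) :
    ContMDiffOn 𝓘(ℝ, E) 𝓘(ℝ, ℝ × (Pal.E n)) ∞ (K p ℓ) (K p ℓ).source := by
  have h1 : ContMDiffOn 𝓘(ℝ, E) 𝓘(ℝ, E) ∞ (chartAt E p) (chartAt E p).source := contMDiffOn_chart
  exact (ℓ.symm.contDiff.contMDiff).comp_contMDiffOn h1

lemma K_symm_smooth (p : M) (ℓ : (ℝ × (Pal.E n)) ≃L[ℝ] E) :
    ContMDiffOn 𝓘(ℝ, ℝ × (Pal.E n)) 𝓘(ℝ, E) ∞ (K p ℓ).symm (K p ℓ).target := by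
  have h1 : ContMDiffOn 𝓘(ℝ, E) 𝓘(ℝ, E) ∞ (chartAt E p).symm (chartAt E p).target :=
    contMDiffOn_chart_symm
  exact h1.comp (ℓ.contDiff.contMDiff.contMDiffOn) (fun z hz => hz)

lemma mfderiv_chart_self (p : M) (v : E) :
    (mfderiv 𝓘(ℝ, E) 𝓘(ℝ, E) (chartAt E p) p : E →L[ℝ] E) v = v := by
  have h1 := congrArg (fun L : E →L[ℝ] E => L v)
    (mfderiv_chartAt_eq_tangentCoordChange (I := 𝓘(ℝ, E)) (mem_chart_source E p))
  exact h1.trans (tangentCoordChange_self (mem_extChartAt_source p))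

set_option backward.isDefEq.respectTransparency false in
lemma K_hasMFDerivAt (p : M) (ℓ : (ℝ × (Pal.E n)) ≃L[ℝ] E) :
    HasMFDerivAt 𝓘(ℝ, E) 𝓘(ℝ, ℝ × (Pal.E n)) (K p ℓ) p
      ((ℓ.symm : E →L[ℝ] (ℝ × (Pal.E n))).comp (mfderiv 𝓘(ℝ, E) 𝓘(ℝ, E) (chartAt E p) p)) := by
  have h1 : MDifferentiableAt 𝓘(ℝ, E) 𝓘(ℝ, E) (chartAt E p) p :=
    mdifferentiableAt_atlas (chart_mem_atlas E p) (mem_chart_source E p)
  have h2 : HasMFDerivAt 𝓘(ℝ, E) 𝓘(ℝ, ℝ × (Pal.E n)) ℓ.symm (chartAt E p p)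
      (ℓ.symm : E →L[ℝ] (ℝ × (Pal.E n))) := ℓ.symm.hasFDerivAt.hasMFDerivAt
  exact h2.comp p h1.hasMFDerivAt

set_option backward.isDefEq.respectTransparency false in
/-- the derivative of a function along an integral curve -/
lemma comp_curve {F : Type} [NormedAddCommGroup F] [NormedSpace ℝ F] {f : M → F} {γ : ℝ → M}
    {X : ∀ x : M, TangentSpace 𝓘(ℝ, E) x} (hγ : IsMIntegralCurve γ X) (t : ℝ)
    {f' : TangentSpace 𝓘(ℝ, E) (γ t) →L[ℝ] F}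
    (hf : HasMFDerivAt 𝓘(ℝ, E) 𝓘(ℝ, F) f (γ t) f') :
    HasDerivAt (fun s => f (γ s)) (f' (X (γ t))) t := by
  have h2 := hf.comp t (hγ t)
  have h4 := h2.hasFDerivAt.hasDerivAt
  refine h4.congr_deriv ?_
  show f' ((1 : ℝ) • (X (γ t))) = _
  rw [one_smul]

lemma K_X (p : M) (ℓ : (ℝ × (Pal.E n)) ≃L[ℝ] E) (X : ∀ x : M, TangentSpace 𝓘(ℝ, E) x) {q : M}
    (hq : q = p) : ∃ f' : TangentSpace 𝓘(ℝ, E) q →L[ℝ] (ℝ × (Pal.E n)),
      HasMFDerivAt 𝓘(ℝ, E) 𝓘(ℝ, ℝ × (Pal.E n)) (K p ℓ) q f' ∧ f' (X q) = ℓ.symm (X p : E) := by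
  subst hq
  refine ⟨_, K_hasMFDerivAt q ℓ, ?_⟩
  let v : E := X q
  exact congrArg (fun w : E => ℓ.symm w) (mfderiv_chart_self q v)

lemma mf_X {F : Type} [NormedAddCommGroup F] [NormedSpace ℝ F] {f : M → F}
    (X : ∀ x : M, TangentSpace 𝓘(ℝ, E) x) {q p : M}
    (hf : MDifferentiableAt 𝓘(ℝ, E) 𝓘(ℝ, F) f p) (hq : q = p) :
    ∃ f' : TangentSpace 𝓘(ℝ, E) q →L[ℝ] F,
      HasMFDerivAt 𝓘(ℝ, E) 𝓘(ℝ, F) f q f' ∧ f' (X q) = mfderiv 𝓘(ℝ, E) 𝓘(ℝ, F) f p (X p) := by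
  subst hq
  exact ⟨_, hf.hasMFDerivAt, rfl⟩

variable {X : ∀ x : M, TangentSpace 𝓘(ℝ, E) x} {φ : ℝ → M → M}

/-- the flow box parametrisation -/
noncomputable def Th (φ : ℝ → M → M) (p : M) (ℓ : (ℝ × (Pal.E n)) ≃L[ℝ] E) (z : ℝ × (Pal.E n)) : M :=
  φ z.1 ((K p ℓ).symm (K p ℓ p + (0, z.2)))

/-- the parametrisation in the chart -/
noncomputable def GF (φ : ℝ → M → M) (p : M) (ℓ : (ℝ × (Pal.E n)) ≃L[ℝ] E) (z : ℝ × (Pal.E n)) : ℝ × (Pal.E n) :=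
  K p ℓ (Th φ p ℓ z)

/-- first domain -/
def OA (p : M) (ℓ : (ℝ × (Pal.E n)) ≃L[ℝ] E) : Set (ℝ × (Pal.E n)) :=
  {z | K p ℓ p + (0, z.2) ∈ (K p ℓ).target}

/-- second domain -/
def OB (φ : ℝ → M → M) (p : M) (ℓ : (ℝ × (Pal.E n)) ≃L[ℝ] E) : Set (ℝ × (Pal.E n)) :=
  OA p ℓ ∩ Th φ p ℓ ⁻¹' (K p ℓ).source

lemma isOpen_OA (p : M) (ℓ : (ℝ × (Pal.E n)) ≃L[ℝ] E) : IsOpen (OA p ℓ) := by
  have h : Continuous (fun z : ℝ × (Pal.E n) => K p ℓ p + ((0 : ℝ), z.2)) := by fun_prop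
  exact (K p ℓ).open_target.preimage h

lemma Th_smooth (hφ : IsFlow E X φ) (p : M) (ℓ : (ℝ × (Pal.E n)) ≃L[ℝ] E) :
    ContMDiffOn 𝓘(ℝ, ℝ × (Pal.E n)) 𝓘(ℝ, E) ∞ (Th φ p ℓ) (OA p ℓ) := by
  have h1 : ContMDiff 𝓘(ℝ, ℝ × (Pal.E n)) 𝓘(ℝ, ℝ × (Pal.E n)) ∞ (fun z : ℝ × (Pal.E n) => K p ℓ p + ((0 : ℝ), z.2)) :=
    ContDiff.contMDiff (by fun_prop)
  have h2 := (K_symm_smooth p ℓ).comp (h1.contMDiffOn (s := OA p ℓ)) (fun z hz => hz)
  have h3 : ContMDiffOn 𝓘(ℝ, ℝ × (Pal.E n)) 𝓘(ℝ, ℝ) ∞ (fun z : ℝ × (Pal.E n) => z.1) (OA p ℓ) :=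
    (contDiff_fst.contMDiff).contMDiffOn
  exact hφ.smooth.comp_contMDiffOn (h3.prodMk h2)

lemma isOpen_OB (hφ : IsFlow E X φ) (p : M) (ℓ : (ℝ × (Pal.E n)) ≃L[ℝ] E) : IsOpen (OB φ p ℓ) :=
  (Th_smooth hφ p ℓ).continuousOn.isOpen_inter_preimage (isOpen_OA p ℓ) (K p ℓ).open_source

lemma GF_smooth (hφ : IsFlow E X φ) (p : M) (ℓ : (ℝ × (Pal.E n)) ≃L[ℝ] E) :
    ContDiffOn ℝ ∞ (GF φ p ℓ) (OB φ p ℓ) := by
  rw [← contMDiffOn_iff_contDiffOn]
  exact (K_smooth p ℓ).comp ((Th_smooth hφ p ℓ).mono inter_subset_left) (fun z hz => hz.2)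

lemma K_mem (p : M) (ℓ : (ℝ × (Pal.E n)) ≃L[ℝ] E) : p ∈ (K p ℓ).source := mem_chart_source E p

lemma Th_zero (φ : ℝ → M → M) (p : M) (ℓ : (ℝ × (Pal.E n)) ≃L[ℝ] E) (s : ℝ) :
    Th φ p ℓ (s, 0) = φ s p := by
  unfold Th
  rw [Prod.mk_zero_zero, add_zero, (K p ℓ).left_inv (K_mem p ℓ)]

lemma zero_mem (hφ : IsFlow E X φ) (p : M) (ℓ : (ℝ × (Pal.E n)) ≃L[ℝ] E) :
    (0 : ℝ × (Pal.E n)) ∈ OB φ p ℓ := by
  constructor
  · show K p ℓ p + ((0 : ℝ), (0 : ℝ × (Pal.E n)).2) ∈ (K p ℓ).target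
    rw [Prod.snd_zero, Prod.mk_zero_zero, add_zero]
    exact (K p ℓ).map_source (K_mem p ℓ)
  · show Th φ p ℓ (0, 0) ∈ (K p ℓ).source
    rw [Th_zero, hφ.zero]
    exact K_mem p ℓ

lemma GF_deriv (hφ : IsFlow E X φ) (p : M) (ℓ : (ℝ × (Pal.E n)) ≃L[ℝ] E) (hℓ : ℓ (1, 0) = X p) :
    HasFDerivAt (GF φ p ℓ) (ContinuousLinearMap.id ℝ (ℝ × (Pal.E n))) 0 := by
  have hG : HasFDerivAt (GF φ p ℓ) (fderiv ℝ (GF φ p ℓ) 0) 0 :=
    (((GF_smooth hφ p ℓ).contDiffAt ((isOpen_OB hφ p ℓ).mem_nhds (zero_mem hφ p ℓ))).differentiableAt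
      (by simp)).hasFDerivAt
  set A := fderiv ℝ (GF φ p ℓ) 0 with hA
  have h1 : A (1, 0) = (1, 0) := by
    have c1 : HasDerivAt (fun s : ℝ => ((s, 0) : ℝ × (Pal.E n))) (1, 0) 0 :=
      (hasDerivAt_id 0).prodMk (hasDerivAt_const 0 0)
    have c2 : HasDerivAt (fun s : ℝ => GF φ p ℓ (s, 0)) (A (1, 0)) 0 := by
      have hG' : HasFDerivAt (GF φ p ℓ) A ((fun s : ℝ => ((s, 0) : ℝ × (Pal.E n))) 0) := hG
      exact hG'.comp_hasDerivAt 0 c1
    obtain ⟨f', hf, hf2⟩ := K_X p ℓ X (hφ.zero p)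
    have c3 := comp_curve (hφ.curve p) 0 hf
    have c4 : (fun s : ℝ => GF φ p ℓ (s, 0)) = fun s => K p ℓ (φ s p) := by
      funext s
      unfold GF
      rw [Th_zero]
    rw [c4] at c2
    rw [c2.unique c3]
    refine hf2.trans ?_
    rw [← hℓ]
    exact ℓ.symm_apply_apply _
  have h2 : ∀ v : (Pal.E n), A (0, v) = (0, v) := by
    intro v
    have c1 : HasDerivAt (fun s : ℝ => ((0, s • v) : ℝ × (Pal.E n))) (0, v) 0 := by
      have := (hasDerivAt_id (0 : ℝ)).smul_const v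
      rw [one_smul] at this
      exact (hasDerivAt_const 0 0).prodMk this
    have c2 : HasDerivAt (fun s : ℝ => GF φ p ℓ (0, s • v)) (A (0, v)) 0 := by
      have hG' : HasFDerivAt (GF φ p ℓ) A ((fun s : ℝ => ((0, s • v) : ℝ × (Pal.E n))) 0) := by
        show HasFDerivAt (GF φ p ℓ) A (0, (0 : ℝ) • v)
        rw [zero_smul]
        exact hG
      exact hG'.comp_hasDerivAt 0 c1
    have c3 : HasDerivAt (fun s : ℝ => K p ℓ p + ((0, s • v) : ℝ × (Pal.E n))) (0, v) 0 := c1.const_add _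
    have c4 : (fun s : ℝ => GF φ p ℓ (0, s • v)) =ᶠ[𝓝 0]
        fun s : ℝ => K p ℓ p + ((0, s • v) : ℝ × (Pal.E n)) := by
      have d1 : ∀ᶠ s : ℝ in 𝓝 0, K p ℓ p + ((0, s • v) : ℝ × (Pal.E n)) ∈ (K p ℓ).target := by
        apply c3.continuousAt.eventually_mem
        apply (K p ℓ).open_target.mem_nhds
        rw [zero_smul, Prod.mk_zero_zero, add_zero]
        exact (K p ℓ).map_source (K_mem p ℓ)
      filter_upwards [d1] with s hs
      show K p ℓ (φ 0 ((K p ℓ).symm (K p ℓ p + (0, s • v)))) = _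
      rw [hφ.zero, (K p ℓ).right_inv hs]
    exact (c2.congr_of_eventuallyEq c4.symm).unique c3
  have h3 : A = ContinuousLinearMap.id ℝ (ℝ × (Pal.E n)) := by
    ext1
    · ext1
      simpa using h1
    · ext1 v
      simpa using h2 v
  rw [h3] at hG
  exact hG

end Main

end BX1_

open BX1_ in
theorem bx11 (hF : T_FLM) : T_BX1 := by
  intro n E _ _ _ _ _ M _ _ _ _ _ _ _ μ X p hE hμ hX hp
  obtain ⟨φ, hφ⟩ := hF E M X hX
  obtain ⟨ℓ, hℓ⟩ := exists_equiv hE (v := (X p : E)) hp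
  obtain ⟨R, R0, RO, RG, Rdet, Rs⟩ := ift (isOpen_OB hφ p ℓ) (zero_mem hφ p ℓ)
    (GF_smooth hφ p ℓ) (GF_deriv hφ p ℓ hℓ)
  obtain ⟨ge, ges, gep, gem⟩ := hμ p
  obtain ⟨c, c0, hc⟩ := exists_const ℓ
  obtain ⟨h, h0, hh⟩ := Metric.isOpen_iff.1 R.open_source 0 R0
  set S : Set (ℝ × (Pal.E n)) := Ioo (-h) h ×ˢ Metric.ball 0 h with hS
  have hSb : S = Metric.ball 0 h := by
    rw [hS]
    have e1 : Ioo (-h) h = Metric.ball (0 : ℝ) h := by
      rw [Real.ball_eq_Ioo]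
      simp
    rw [e1, ball_prod_same]
    rfl
  have hSR : S ⊆ R.source := hSb ▸ hh
  have hSo : IsOpen S := hSb ▸ Metric.isOpen_ball
  set Φ0 : OpenPartialHomeomorph M (ℝ × (Pal.E n)) := (K p ℓ).trans R.symm with hΦ0
  have hR1 : ∀ z ∈ R.source, R z = K p ℓ (Th φ p ℓ z) := fun z _ => RG z
  have hT0 : R.source ⊆ Φ0.target := by
    intro z hz
    refine ⟨hz, ?_⟩
    show R z ∈ (K p ℓ).target
    rw [RG]
    exact (K p ℓ).map_source (RO hz).2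
  set Φ : OpenPartialHomeomorph M (ℝ × (Pal.E n)) := (Φ0.symm.restrOpen S hSo).symm with hΦ
  have htar : Φ.target = S := by
    show Φ0.target ∩ S = S
    exact inter_eq_right.2 (hSR.trans hT0)
  have hsymm : ∀ z ∈ S, Φ.symm z = Th φ p ℓ z := by
    intro z hz
    show (K p ℓ).symm (R z) = _
    rw [RG]
    exact (K p ℓ).left_inv (RO (hSR hz)).2
  have hmem : ∀ x ∈ Φ.source, Φ x ∈ S ∧ Th φ p ℓ (Φ x) = x ∧ K p ℓ x = GF φ p ℓ (Φ x) ∧
      x ∈ (K p ℓ).source := by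
    intro x hx
    have h1 := Φ.map_source hx
    rw [htar] at h1
    have h2 : Th φ p ℓ (Φ x) = x := by rw [← hsymm _ h1, Φ.left_inv hx]
    have h3 : Th φ p ℓ (Φ x) ∈ (K p ℓ).source := (RO (hSR h1)).2
    refine ⟨h1, h2, ?_, ?_⟩
    · unfold GF
      rw [h2]
    · rwa [h2] at h3
  have hΦs : ContMDiffOn 𝓘(ℝ, E) 𝓘(ℝ, ℝ × (Pal.E n)) ∞ Φ Φ.source := by
    have a1 : ContMDiffOn 𝓘(ℝ, ℝ × (Pal.E n)) 𝓘(ℝ, ℝ × (Pal.E n)) ∞ R.symm R.target :=
      contMDiffOn_iff_contDiffOn.2 Rs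
    have a2 : ContMDiffOn 𝓘(ℝ, E) 𝓘(ℝ, ℝ × (Pal.E n)) ∞ (K p ℓ) Φ.source :=
      (K_smooth p ℓ).mono fun x hx => (hmem x hx).2.2.2
    refine a1.comp a2 fun x hx => ?_
    obtain ⟨b1, -, b3, -⟩ := hmem x hx
    show K p ℓ x ∈ R.target
    rw [b3, ← RG]
    exact R.map_source (hSR b1)
  have hΦi : ContMDiffOn 𝓘(ℝ, ℝ × (Pal.E n)) 𝓘(ℝ, E) ∞ Φ.symm Φ.target := by
    rw [htar]
    exact ((Th_smooth hφ p ℓ).mono fun z hz => (RO (hSR hz)).1).congr hsymm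
  have hpS : p ∈ Φ.source ∧ Φ p = 0 := by
    have a1 : (0 : ℝ × (Pal.E n)) ∈ S := by
      rw [hSb]
      exact Metric.mem_ball_self h0
    have a2 : Φ.symm 0 = p := by
      rw [hsymm 0 a1]
      have := Th_zero φ p ℓ 0
      rw [hφ.zero] at this
      exact this
    have a3 : (0 : ℝ × (Pal.E n)) ∈ Φ.target := by rwa [htar]
    refine ⟨?_, ?_⟩
    · rw [← a2]
      exact Φ.map_target a3
    · rw [← a2]
      exact Φ.right_inv a3
  have hext : ∀ z ∈ S, ℓ (GF φ p ℓ z) ∈ (extChartAt 𝓘(ℝ, E) p).target := by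
    intro z hz
    have a1 : ℓ (GF φ p ℓ z) = extChartAt 𝓘(ℝ, E) p (Th φ p ℓ z) := ℓ.apply_symm_apply _
    rw [a1]
    apply (extChartAt 𝓘(ℝ, E) p).map_source
    rw [extChartAt_source]
    exact (RO (hSR hz)).2
  refine ⟨Φ, h, fun z => c * (fderiv ℝ (GF φ p ℓ) z).det * ge (ℓ (GF φ p ℓ z)),
    ⟨h0, htar, hΦs, hΦi, ?_, ?_, ?_, ?_⟩, hpS.1, hpS.2⟩
  · -- the field
    intro x hx
    obtain ⟨b1, b2, b3, b4⟩ := hmem x hx
    have a1 : MDifferentiableAt 𝓘(ℝ, E) 𝓘(ℝ, ℝ × (Pal.E n)) Φ x :=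
      (hΦs.contMDiffAt (Φ.open_source.mem_nhds hx)).mdifferentiableAt (by simp)
    obtain ⟨f', hf, hf2⟩ := mf_X X a1 (hφ.zero x)
    have c1 := comp_curve (hφ.curve x) 0 hf
    rw [hf2] at c1
    set z := Φ x with hz
    have c2 : HasDerivAt (fun s : ℝ => ((z.1 + s, z.2) : ℝ × (Pal.E n))) (1, 0) 0 :=
      ((hasDerivAt_id (0 : ℝ)).const_add z.1).prodMk (hasDerivAt_const 0 z.2)
    have c3 : (fun s : ℝ => ((z.1 + s, z.2) : ℝ × (Pal.E n))) =ᶠ[𝓝 0] fun s => Φ (φ s x) := by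
      have d1 : ∀ᶠ s : ℝ in 𝓝 0, ((z.1 + s, z.2) : ℝ × (Pal.E n)) ∈ S := by
        apply c2.continuousAt.eventually_mem
        apply hSo.mem_nhds
        rw [add_zero]
        exact b1
      filter_upwards [d1] with s hs
      have d2 : φ s x = Φ.symm (z.1 + s, z.2) := by
        rw [hsymm _ hs]
        conv_lhs => rw [← b2]
        unfold Th
        rw [hφ.add, add_comm]
      rw [d2]
      exact (Φ.right_inv (by rwa [htar])).symm
    exact (c2.congr_of_eventuallyEq c3.symm).unique c1 |>.symm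
  · rw [htar]
    have a0 : ContDiffOn ℝ ∞ (GF φ p ℓ) S := (GF_smooth hφ p ℓ).mono (hSR.trans RO)
    have a1 : ContDiffOn ℝ ∞ (fderiv ℝ (GF φ p ℓ)) S :=
      a0.fderiv_of_isOpen hSo (by simp)
    have a2 : ContDiffOn ℝ ∞ (fun z => (fderiv ℝ (GF φ p ℓ) z).det) S :=
      contDiff_det.comp_contDiffOn a1
    have a3 : ContDiffOn ℝ ∞ (fun z => ge (ℓ (GF φ p ℓ z))) S := by
      exact ges.comp (ℓ.contDiff.comp_contDiffOn a0) fun z hz => hext z hz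
    exact (contDiffOn_const.mul a2).mul a3
  · intro z hz
    rw [htar] at hz
    have a1 := Rdet z (hSR hz)
    have a2 : 0 < ge (ℓ (GF φ p ℓ z)) := gep _ (hext z hz)
    positivity
  · intro A hA hAm
    have a1 : A ⊆ (extChartAt 𝓘(ℝ, E) p).source := by
      intro x hx
      rw [extChartAt_source]
      exact (hmem x (hA hx)).2.2.2
    have a2 : ℓ.symm '' (extChartAt 𝓘(ℝ, E) p '' A) = GF φ p ℓ '' (Φ '' A) := by
      rw [image_image, image_image]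
      apply image_congr
      intro x hx
      exact (hmem x (hA hx)).2.2.1
    have a3 : MeasurableSet (Φ '' A) := by
      rw [Φ.image_eq_target_inter_inv_preimage hA]
      exact measurableSet_inter Φ.open_target Φ.continuousOn_symm hAm
    have a4 : Φ '' A ⊆ S := by
      rintro _ ⟨x, hx, rfl⟩
      exact (hmem x (hA hx)).1
    have a5 : InjOn (GF φ p ℓ) (Φ '' A) := by
      intro z hz w hw hzw
      exact R.injOn (hSR (a4 hz)) (hSR (a4 hw)) (by rw [RG, RG]; exact hzw)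
    have a6 : ∀ z ∈ Φ '' A, HasFDerivWithinAt (GF φ p ℓ) (fderiv ℝ (GF φ p ℓ) z) (Φ '' A) z := by
      intro z hz
      have := (GF_smooth hφ p ℓ).contDiffAt ((isOpen_OB hφ p ℓ).mem_nhds (RO (hSR (a4 hz))))
      exact (this.differentiableAt (by simp)).hasFDerivAt.hasFDerivWithinAt
    rw [gem A a1 hAm, hc, a2, lintegral_image_eq_lintegral_abs_det_fderiv_mul volume a3 a6 a5,
      ← lintegral_const_mul' _ _ ENNReal.ofReal_ne_top]
    refine setLIntegral_congr_fun a3 fun z hz => ?_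
    have b1 := Rdet z (hSR (a4 hz))
    show ENNReal.ofReal c * (ENNReal.ofReal |(fderiv ℝ (GF φ p ℓ) z).det| *
      ENNReal.ofReal (ge (ℓ (GF φ p ℓ z)))) = _
    rw [abs_of_pos b1, ← ENNReal.ofReal_mul b1.le, ← ENNReal.ofReal_mul c0.le, mul_assoc]

end Pool.Agent.PalN
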