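import Pool.Agent.PalN.BXF
import Pool.Agent.PalN.OBF

/-!
# The return map is a local diffeomorphism
-/

set_option autoImplicit false
set_option linter.unusedSectionVars false

open scoped Manifold ContDiff Topology
open MeasureTheory Set Filter Bundle Asymptotics Metric Pool.Agent.Palis Pool.Agent.PalF

namespace Pool.Agent.PalN

variable {n : ℕ}

theorem pm11 : T_PM1 := by
  intro n E _ _ _ M _ _ _ _ _ _ μ X γ τ Φ h φ hX hγ hob hφ τ' hτ'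
  obtain ⟨e1, e2, e3, e4⟩ := obf1 n E M μ X γ τ Φ h φ hX hγ hob hφ
  obtain ⟨hc, hne, hτ, hγτ, hmin⟩ := hγ
  obtain ⟨hb, hp, hp0, hax, h8⟩ := hob
  have hh : 0 < h := hb.pos
  have hfix : φ τ' (γ 0) = γ 0 := by
    rw [e1, add_zero]
    rcases hτ' with rfl | rfl
    · exact hγτ
    · rw [← e2 (-τ), neg_add_cancel]
  have hsymm0 : Φ.symm ((0 : ℝ), (0 : (Pal.E n))) = γ 0 := by
    rw [← Φ.left_inv hp, hp0]
    rfl
  have hφτ : ContMDiff 𝓘(ℝ, E) 𝓘(ℝ, E) ∞ (φ τ') :=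
    hφ.smooth.comp (contMDiff_const.prodMk contMDiff_id)
  have hι : ContMDiff 𝓘(ℝ, (Pal.E n)) 𝓘(ℝ, ℝ × (Pal.E n)) ∞ (fun y : (Pal.E n) => (((0 : ℝ), y) : ℝ × (Pal.E n))) :=
    (contDiff_const.prodMk contDiff_id).contMDiff
  set f : (Pal.E n) → M := fun y => φ τ' (Φ.symm (0, y)) with hf
  have hmaps : ∀ y ∈ ball (0 : (Pal.E n)) h, (((0 : ℝ), y) : ℝ × (Pal.E n)) ∈ Φ.target := by
    intro y hy
    rw [hb.target]
    exact ⟨⟨by linarith, hh⟩, hy⟩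
  have hfs : ContMDiffOn 𝓘(ℝ, (Pal.E n)) 𝓘(ℝ, E) ∞ f (ball 0 h) :=
    hφτ.comp_contMDiffOn (hb.smooth_symm.comp hι.contMDiffOn hmaps)
  have hsm : ∀ y ∈ ball (0 : (Pal.E n)) h, f y ∈ Φ.source → ContDiffAt ℝ ∞ (pm φ Φ τ') y := by
    intro y hy hs
    have h1 : ContMDiffAt 𝓘(ℝ, (Pal.E n)) 𝓘(ℝ, E) ∞ f y := hfs.contMDiffAt (isOpen_ball.mem_nhds hy)
    have h2 : ContMDiffAt 𝓘(ℝ, E) 𝓘(ℝ, ℝ × (Pal.E n)) ∞ Φ (f y) :=
      hb.smooth.contMDiffAt (Φ.open_source.mem_nhds hs)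
    have h3 : ContMDiffAt 𝓘(ℝ, (Pal.E n)) 𝓘(ℝ, ℝ × (Pal.E n)) ∞ (Φ ∘ f) y := h2.comp y h1
    exact (contMDiffAt_iff_contDiffAt.mp h3).snd
  have hf0 : f 0 = γ 0 := by
    show φ τ' (Φ.symm ((0 : ℝ), (0 : (Pal.E n)))) = γ 0
    rw [hsymm0, hfix]
  have hpm0 : pm φ Φ τ' 0 = 0 := by
    show (Φ (f 0)).2 = 0
    rw [hf0, hp0]
    rfl
  refine ⟨hpm0, hsm 0 (mem_ball_self hh) (by rw [hf0]; exact hp), ?_⟩
  have hO : IsOpen (Φ.source ∩ Φ ⁻¹' {z : ℝ × (Pal.E n) | |z.1| < h / 16}) :=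
    Φ.isOpen_inter_preimage (isOpen_lt (continuous_abs.comp continuous_fst) continuous_const)
  have hev : ∀ᶠ y in 𝓝 (0 : (Pal.E n)), f y ∈ Φ.source ∩ Φ ⁻¹' {z : ℝ × (Pal.E n) | |z.1| < h / 16} := by
    have hc0 : ContinuousAt f 0 := (hfs.continuousOn).continuousAt (ball_mem_nhds _ hh)
    refine hc0.eventually (hO.mem_nhds ?_)
    rw [hf0]
    refine ⟨hp, ?_⟩
    show |(Φ (γ 0)).1| < h / 16
    rw [hp0]
    simpa using by positivity
  obtain ⟨δ₀, hδ₀, hball⟩ := Metric.eventually_nhds_iff_ball.mp hev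
  refine ⟨min δ₀ h, lt_min hδ₀ hh, min_le_right _ _, fun y hy => ?_⟩
  have hy1 : y ∈ ball (0 : (Pal.E n)) h := by
    rw [mem_ball_zero_iff]
    exact hy.trans_le (min_le_right _ _)
  obtain ⟨hs, habs⟩ := hball y (by
    rw [mem_ball_zero_iff]
    exact hy.trans_le (min_le_left _ _))
  have habs' : |(Φ (f y)).1| < h / 16 := habs
  have htar := Φ.map_source hs
  rw [hb.target] at htar
  have hy' : pm φ Φ τ' y ∈ ball (0 : (Pal.E n)) h := htar.2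
  have hsy : Φ.symm ((0 : ℝ), y) ∈ Φ.source := Φ.map_target (hmaps y hy1)
  have hΦy : Φ (Φ.symm ((0 : ℝ), y)) = (0, y) := Φ.right_inv (hmaps y hy1)
  have hcomm : ∀ s t x, φ s (φ t x) = φ t (φ s x) := fun s t x => by
    rw [hφ.add, hφ.add, add_comm]
  have habs2 := abs_lt.mp habs'
  refine ⟨hs, habs', mem_ball_zero_iff.mp hy', hsm y hy1 hs, ?_, ?_⟩
  · -- the inverse
    set θ := (Φ (f y)).1 with hθ
    have h1 := bxf1 n E M μ X Φ h (fun _ => 1) φ hX hb hφ (f y) hs (-θ) (by simpa [hθ] using hh)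
    have h2 : φ (-θ) (f y) = Φ.symm (0, pm φ Φ τ' y) := by
      rw [← Φ.left_inv h1.1, h1.2]
      congr 1
      exact Prod.ext (by simp [hθ]) rfl
    have h3 := bxf1 n E M μ X Φ h (fun _ => 1) φ hX hb hφ _ hsy (-θ) (by
      rw [hΦy]
      show |0 + -θ| < h
      rw [zero_add, abs_neg]
      linarith)
    show (Φ (φ (-τ') (Φ.symm (0, pm φ Φ τ' y)))).2 = y
    rw [← h2, hcomm]
    have h4 : φ (-τ') (f y) = Φ.symm (0, y) := by
      show φ (-τ') (φ τ' (Φ.symm (0, y))) = _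
      rw [hφ.add, neg_add_cancel, hφ.zero]
    rw [h4, h3.2, hΦy]
  · intro t ht
    have h1 : φ t (Φ.symm ((0 : ℝ), y)) = Φ.symm (t, y) := by
      have h2 := bxf1 n E M μ X Φ h (fun _ => 1) φ hX hb hφ _ hsy t (by
        rw [hΦy]
        show |0 + t| < h
        rw [zero_add]
        linarith)
      rw [← Φ.left_inv h2.1, h2.2, hΦy, zero_add]
    have habs3 := abs_le.mp ht
    have h3 := bxf1 n E M μ X Φ h (fun _ => 1) φ hX hb hφ (f y) hs t (by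
      rw [abs_lt]
      constructor <;> linarith)
    have h4 : φ τ' (Φ.symm (t, y)) = φ t (f y) := by
      rw [← h1, hcomm]
    rw [h4]
    exact h3

end Pool.Agent.PalN
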